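import Mathlib

/-!
# Cross-intersecting sequences of projective subspaces

Let `F` be a field and let `(U_i, V_i)`, `1 ≤ i ≤ m`, be pairs of nonzero linear subspaces of `F ^ (n + 1)`
with `U_i ∩ V_i = 0` for all `i` and `U_i ∩ V_j ≠ 0` for all `i < j`.  Then `m ≤ 2 ^ (n + 1) - 2`.
-/

set_option autoImplicit false

namespace Pool.Agent.Results.MP_59f694_co.BoundHolds

open Module

variable {F : Type*} [Field F] {n : ℕ}

/-- the sum of the exterior powers of degrees `1, …, n` -/
abbrev Z (F : Type*) [Field F] (n : ℕ) : Type _ :=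
  (s : Fin n) → ⋀[F]^((s : ℕ) + 1) (Fin (n + 1) → F)

theorem finrank_Z : finrank F (Z F n) = 2 ^ (n + 1) - 2 := by
  rw [Module.finrank_pi_fintype]
  have h : ∀ s : Fin n, finrank F (⋀[F]^((s : ℕ) + 1) (Fin (n + 1) → F)) =
      (n + 1).choose ((s : ℕ) + 1) := by
    intro s
    rw [exteriorPower.finrank_eq, Module.finrank_fin_fun]
  rw [Finset.sum_congr rfl fun s _ => h s]
  rw [Fin.sum_univ_eq_sum_range (fun s => (n + 1).choose (s + 1)) n]
  have h2 := Nat.sum_range_choose (n + 1)
  rw [Finset.sum_range_succ, Finset.sum_range_succ', Nat.choose_zero_right, Nat.choose_self] at h2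
  omega

/-- the vector attached to a family of vectors -/
noncomputable def vec (s : Fin n) (u : Fin ((s : ℕ) + 1) → (Fin (n + 1) → F)) : Z F n :=
  Pi.single s (exteriorPower.ιMulti F ((s : ℕ) + 1) u)

/-- the linear form attached to a subspace of codimension `s + 1` -/
noncomputable def form (s : Fin n) (V : Submodule F (Fin (n + 1) → F))
    (b : Basis (Fin ((s : ℕ) + 1)) F ((Fin (n + 1) → F) ⧸ V)) : Z F n →ₗ[F] F :=
  (exteriorPower.alternatingMapLinearEquiv (b.det.compLinearMap V.mkQ)) ∘ₗ LinearMap.proj s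

theorem form_vec (s : Fin n) (V : Submodule F (Fin (n + 1) → F))
    (b : Basis (Fin ((s : ℕ) + 1)) F ((Fin (n + 1) → F) ⧸ V))
    (u : Fin ((s : ℕ) + 1) → (Fin (n + 1) → F)) :
    form s V b (vec s u) = b.det (fun i => V.mkQ (u i)) := by
  simp only [form, vec, LinearMap.comp_apply, LinearMap.proj_apply, Pi.single_eq_same]
  rw [exteriorPower.alternatingMapLinearEquiv_apply_ιMulti]
  rfl

theorem form_vec_ne (s s' : Fin n) (h : s ≠ s') (V : Submodule F (Fin (n + 1) → F))
    (b : Basis (Fin ((s : ℕ) + 1)) F ((Fin (n + 1) → F) ⧸ V))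
    (u : Fin ((s' : ℕ) + 1) → (Fin (n + 1) → F)) :
    form s V b (vec s' u) = 0 := by
  simp only [form, vec, LinearMap.comp_apply, LinearMap.proj_apply]
  rw [Pi.single_eq_of_ne h, map_zero]

theorem form_zero (s s' : Fin n) (V : Submodule F (Fin (n + 1) → F))
    (b : Basis (Fin ((s : ℕ) + 1)) F ((Fin (n + 1) → F) ⧸ V))
    (u : Fin ((s' : ℕ) + 1) → (Fin (n + 1) → F))
    (hu : ¬ Disjoint (Submodule.span F (Set.range u)) V) :
    form s V b (vec s' u) = 0 := by
  by_cases h : s = s'
  · subst h
    rw [form_vec]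
    by_contra hne
    apply hu
    have hunit : IsUnit (b.det (fun i => V.mkQ (u i))) := isUnit_iff_ne_zero.2 hne
    have hli := (b.is_basis_iff_det.2 hunit).1
    rw [Submodule.disjoint_def]
    intro x hx hxV
    obtain ⟨c, rfl⟩ := (Submodule.mem_span_range_iff_exists_fun F).1 hx
    have h1 : ∑ i, c i • V.mkQ (u i) = 0 := by
      have h2 : V.mkQ (∑ i, c i • u i) = 0 := by
        rw [Submodule.mkQ_apply, Submodule.Quotient.mk_eq_zero]
        exact hxV
      simpa [map_sum, map_smul] using h2
    have h3 := Fintype.linearIndependent_iff.1 hli c h1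
    simp [h3]
  · exact form_vec_ne s s' h V b u

theorem form_ne (s : Fin n) (V : Submodule F (Fin (n + 1) → F))
    (b : Basis (Fin ((s : ℕ) + 1)) F ((Fin (n + 1) → F) ⧸ V))
    (u : Fin ((s : ℕ) + 1) → (Fin (n + 1) → F)) (hli : LinearIndependent F u)
    (hu : Disjoint (Submodule.span F (Set.range u)) V) :
    form s V b (vec s u) ≠ 0 := by
  rw [form_vec]
  have h1 : LinearIndependent F (V.mkQ ∘ u) := hli.map (by rw [Submodule.ker_mkQ]; exact hu)
  have h2 : Submodule.span F (Set.range (V.mkQ ∘ u)) = ⊤ := by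
    apply h1.span_eq_top_of_card_eq_finrank'
    rw [Fintype.card_fin, finrank_eq_card_basis b, Fintype.card_fin]
  have h3 := b.is_basis_iff_det.1 ⟨h1, h2⟩
  exact h3.ne_zero

/-- **Q1 of MP_59f694_co, positive answer.** -/
theorem result (F : Type*) [Field F] (n m : ℕ) (U V : Fin m → Submodule F (Fin (n + 1) → F))
    (hU : ∀ i, U i ≠ ⊥) (hV : ∀ i, V i ≠ ⊥) (hd : ∀ i, Disjoint (U i) (V i))
    (hx : ∀ i j, i < j → ¬ Disjoint (U i) (V j)) : m ≤ 2 ^ (n + 1) - 2 := by
  -- complements
  have h1 : ∀ i, ∃ U' : Submodule F (Fin (n + 1) → F), U i ≤ U' ∧ IsCompl U' (V i) := by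
    intro i
    obtain ⟨C, hC, hCV⟩ := (hd i).exists_isCompl
    exact ⟨C, hC, hCV⟩
  choose U' hUU' hcompl using h1
  -- bases
  have h2 : ∀ i, ∃ (s : Fin n) (u : Fin ((s : ℕ) + 1) → (Fin (n + 1) → F)),
      LinearIndependent F u ∧ Submodule.span F (Set.range u) = U' i ∧
      Nonempty (Basis (Fin ((s : ℕ) + 1)) F ((Fin (n + 1) → F) ⧸ V i)) := by
    intro i
    set k := finrank F (U' i) with hk
    have hq : finrank F ((Fin (n + 1) → F) ⧸ V i) = k :=
      (Submodule.quotientEquivOfIsCompl _ _ (hcompl i).symm).finrank_eq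
    have hsum : k + finrank F (V i) = n + 1 := by
      have := Submodule.finrank_add_eq_of_isCompl (hcompl i)
      rw [Module.finrank_fin_fun] at this
      exact this
    have hk1 : 1 ≤ k := by
      rw [hk, Nat.one_le_iff_ne_zero]
      intro h0
      have h00 : U' i = ⊥ := Submodule.finrank_eq_zero.1 h0
      exact hU i (le_bot_iff.1 (h00 ▸ hUU' i))
    have hV1 : 1 ≤ finrank F (V i) := by
      rw [Nat.one_le_iff_ne_zero]
      intro h0
      exact hV i (Submodule.finrank_eq_zero.1 h0)
    have hkn : k - 1 < n := by omega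
    have hk' : finrank F (U' i) = (k - 1) + 1 := by omega
    let bU := finBasisOfFinrankEq F (U' i) hk'
    refine ⟨⟨k - 1, hkn⟩, fun a => (bU a : Fin (n + 1) → F), ?_, ?_, ⟨?_⟩⟩
    · exact bU.linearIndependent.map' (U' i).subtype (Submodule.ker_subtype _)
    · have h3 : Set.range (fun a => (bU a : Fin (n + 1) → F)) =
          (U' i).subtype '' Set.range bU := by
        rw [← Set.range_comp]
        rfl
      rw [h3, ← Submodule.map_span, bU.span_eq, Submodule.map_top, Submodule.range_subtype]
    · exact finBasisOfFinrankEq F _ (by rw [hq]; show k = (k - 1) + 1; omega)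
  choose s u hli hspan hb using h2
  let b := fun i => (hb i).some
  have hlin : LinearIndependent F (fun i => vec (s i) (u i)) := by
    rw [Fintype.linearIndependent_iff]
    intro c hc
    by_contra hne
    push Not at hne
    obtain ⟨i0, hi0⟩ := hne
    classical
    let t := Finset.univ.filter fun i => c i ≠ 0
    have ht : t.Nonempty := ⟨i0, by simp [t, hi0]⟩
    set j := t.max' ht with hj
    have hjt : c j ≠ 0 := by
      have := t.max'_mem ht
      simpa [t] using this
    have h3 := congrArg (form (s j) (V j) (b j)) hc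
    rw [map_sum, map_zero] at h3
    rw [Finset.sum_eq_single j] at h3
    · rw [map_smul, smul_eq_mul] at h3
      rcases mul_eq_zero.1 h3 with h | h
      · exact hjt h
      · refine form_ne (s j) (V j) (b j) (u j) (hli j) ?_ h
        rw [hspan]
        exact (hcompl j).disjoint
    · intro i _ hij
      rw [map_smul, smul_eq_mul]
      by_cases hci : c i = 0
      · rw [hci, zero_mul]
      · have hlt : i < j := lt_of_le_of_ne (t.le_max' i (by simp [t, hci])) hij
        rw [form_zero, mul_zero]
        rw [hspan]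
        intro hdis
        exact hx i j hlt (hdis.mono_left (hUU' i))
    · intro h
      exact absurd (Finset.mem_univ j) h
  have h4 := hlin.fintype_card_le_finrank
  rw [Fintype.card_fin, finrank_Z] at h4
  exact h4

end Pool.Agent.Results.MP_59f694_co.BoundHolds
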